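import Pool.Agent.H25.MM.R719.WD.Ost

set_option autoImplicit false
set_option linter.unusedSectionVars false

/-! Ostrowski's determinant inequality for complex matrices. -/

namespace Pool.Agent.R719.LG

open Matrix Pool.Agent.R719.WD

variable {κ μ : Type} [Fintype κ] [DecidableEq κ] [Fintype μ] [DecidableEq μ]

/-- `M` is a comparison matrix for the complex matrix `X` -/
structure CmpC (M : Matrix κ κ ℝ) (X : Matrix κ κ ℂ) : Prop where
  diag : ∀ i, M i i ≤ ‖X i i‖
  off : ∀ i j, i ≠ j → ‖X i j‖ ≤ - M i j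

theorem CmpC.reindex {M : Matrix κ κ ℝ} {X : Matrix κ κ ℂ} (h : CmpC M X) (e : μ ≃ κ) :
    CmpC (M.submatrix e e) (X.submatrix e e) where
  diag i := h.diag _
  off i j hij := h.off _ _ fun hh => hij (e.injective hh)

/-- the Schur complement -/
noncomputable def schC {n : ℕ} (M : Matrix (Fin (n + 1)) (Fin (n + 1)) ℂ) :
    Matrix (Fin n) (Fin n) ℂ :=
  Matrix.of fun i j => M i.succ j.succ - M i.succ 0 * M 0 j.succ / M 0 0

theorem det_schC {n : ℕ} (M : Matrix (Fin (n + 1)) (Fin (n + 1)) ℂ) (h : M 0 0 ≠ 0) :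
    M.det = M 0 0 * (schC M).det := by
  let B : Matrix (Fin (n + 1)) (Fin (n + 1)) ℂ :=
    Matrix.of fun i j => if i = 0 then M 0 j else M i j - M i 0 / M 0 0 * M 0 j
  have h1 : M.det = B.det := by
    refine Matrix.det_eq_of_forall_row_eq_smul_add_const
      (fun i => if i = 0 then 0 else M i 0 / M 0 0) 0 (if_pos rfl) ?_
    intro i j
    simp only [B, Matrix.of_apply, if_true]
    by_cases hi : i = 0
    · subst hi; simp
    · rw [if_neg hi, if_neg hi]; ring
  rw [h1, Matrix.det_succ_column_zero, Finset.sum_eq_single 0]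
  · have h2 : B 0 0 = M 0 0 := by simp [B]
    have h3 : B.submatrix (Fin.succAbove 0) Fin.succ = schC M := by
      ext i j
      simp only [Matrix.submatrix_apply, B, Matrix.of_apply, schC, Fin.succAbove_zero]
      rw [if_neg (Fin.succ_ne_zero i)]
      ring
    rw [h2, h3]
    simp
  · intro i _ hi
    have h2 : B i 0 = 0 := by
      simp only [B, Matrix.of_apply]
      rw [if_neg hi]
      field_simp
      ring
    rw [h2]; simp
  · intro hh; exact absurd (Finset.mem_univ _) hh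

theorem CmpC.sch {n : ℕ} {M : Matrix (Fin (n + 1)) (Fin (n + 1)) ℝ}
    {X : Matrix (Fin (n + 1)) (Fin (n + 1)) ℂ} (h : CmpC M X)
    (h0 : 0 < M 0 0) : CmpC (WD.sch M) (schC X) := by
  have hX : M 0 0 ≤ ‖X 0 0‖ := h.diag 0
  have hX0 : 0 < ‖X 0 0‖ := lt_of_lt_of_le h0 hX
  have key : ∀ i j : Fin n, ‖X i.succ 0 * X 0 j.succ / X 0 0‖
      ≤ M i.succ 0 * M 0 j.succ / M 0 0 := by
    intro i j
    have h1 := h.off i.succ 0 (Fin.succ_ne_zero i)
    have h2 := h.off 0 j.succ (Fin.succ_ne_zero j).symm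
    rw [norm_div, norm_mul]
    have h3 : ‖X i.succ 0‖ * ‖X 0 j.succ‖ ≤ M i.succ 0 * M 0 j.succ := by
      have := mul_le_mul h1 h2 (norm_nonneg _) ((norm_nonneg _).trans h1)
      linarith
    exact div_le_div₀ ((mul_nonneg (norm_nonneg _) (norm_nonneg _)).trans h3) h3 h0 hX
  constructor
  · intro i
    have h1 := h.diag i.succ
    have h2 := key i i
    change M i.succ i.succ - M i.succ 0 * M 0 i.succ / M 0 0
      ≤ ‖X i.succ i.succ - X i.succ 0 * X 0 i.succ / X 0 0‖
    have h3 := norm_sub_norm_le (X i.succ i.succ) (X i.succ 0 * X 0 i.succ / X 0 0)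
    linarith
  · intro i j hij
    have h1 := h.off i.succ j.succ (fun hh => hij (Fin.succ_injective _ hh))
    have h2 := key i j
    change ‖X i.succ j.succ - X i.succ 0 * X 0 j.succ / X 0 0‖
      ≤ -(M i.succ j.succ - M i.succ 0 * M 0 j.succ / M 0 0)
    have h3 := norm_sub_le (X i.succ j.succ) (X i.succ 0 * X 0 j.succ / X 0 0)
    linarith

theorem ost_finC : ∀ (n : ℕ) (M : Matrix (Fin n) (Fin n) ℝ) (X : Matrix (Fin n) (Fin n) ℂ)
    (p : Fin n → ℝ), Good M p → CmpC M X → M.det ≤ ‖X.det‖ := by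
  intro n
  induction n with
  | zero => intro M X p _ _; simp
  | succ n ih =>
    intro M X p hM hX
    rcases lt_or_ge 0 (M 0 0) with h0 | h0
    · have hX0 : M 0 0 ≤ ‖X 0 0‖ := hX.diag 0
      have hX1 : X 0 0 ≠ 0 := norm_pos_iff.1 (lt_of_lt_of_le h0 hX0)
      rw [det_sch M h0.ne', det_schC X hX1, norm_mul]
      have h1 := (hM.sch h0).det_nonneg
      have h2 := ih _ _ _ (hM.sch h0) (hX.sch h0)
      exact mul_le_mul hX0 h2 h1 (h0.le.trans hX0)
    · have h1 := hM.zero_row 0 h0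
      have h2 : M.det = 0 := Matrix.det_eq_zero_of_row_eq_zero 0 h1
      rw [h2]
      exact norm_nonneg _

/-- Ostrowski's inequality for complex matrices -/
theorem ostC {M : Matrix κ κ ℝ} {X : Matrix κ κ ℂ} {p : κ → ℝ} (hM : Good M p)
    (hX : CmpC M X) : M.det ≤ ‖X.det‖ := by
  have e := (Fintype.equivFin κ).symm
  have h := ost_finC _ _ _ _ (hM.reindex e) (hX.reindex e)
  rwa [Matrix.det_submatrix_equiv_self, Matrix.det_submatrix_equiv_self] at h

end Pool.Agent.R719.LG
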